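import Pool.Agent.helper3.XT.Spec
set_option autoImplicit false
namespace Pool.Agent.XT
open Finset SimpleGraph

theorem FNM_inn {n : ℕ} (u w : Fin 3 → Fin n) (s : P8 → Fin n) : (inn u w s).card ≤ 12 := by
  have h1 : ({Sum.inl (u 0), Sum.inl (u 1), Sum.inl (w 0), Sum.inl (w 1)} :
      Finset (VV n)).card ≤ 4 := Finset.card_le_four
  have h2 : (Finset.univ.image (fun p => (Sum.inr (s p) : VV n))).card ≤ 8 := by
    refine Finset.card_image_le.trans ?_
    rw [Finset.card_univ]
    have : Fintype.card P8 = 8 := by rfl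
    omega
  exact (Finset.card_union_le _ _).trans (by omega)

theorem FNM_mem {n : ℕ} (u w : Fin 3 → Fin n) (s : P8 → Fin n) :
    (Sum.inl (u 0) : VV n) ∈ inn u w s ∧ (Sum.inl (u 1) : VV n) ∈ inn u w s ∧
    (Sum.inl (w 0) : VV n) ∈ inn u w s ∧ (Sum.inl (w 1) : VV n) ∈ inn u w s ∧
    ∀ p, (Sum.inr (s p) : VV n) ∈ inn u w s := by
  refine ⟨?_, ?_, ?_, ?_, fun p => ?_⟩ <;> simp [inn]

theorem FNM (hSEL : SEL_stmt) (hMEQ : MEQ_stmt) : FNM_stmt := by
  intro n B a b x hab hx ha hb
  rw [hMEQ]
  classical
  let c : Bool × Fin 3 → Fin n := fun q => if q.1 = true then b q.2 else a q.2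
  have hTT : ∀ g : GI, TT B (c (cg g)) (x (xg g)) := by
    rintro ⟨sd, i, j, cp⟩
    cases sd
    · exact ha i j
    · exact hb i j
  have hcardGI : Fintype.card GI = 36 := rfl
  -- the points y
  obtain ⟨g1, hg1, hg1W, hg1d⟩ := hSEL GI (Fin n) (Finset.univ.image x) 1 500
    (fun g => (Tset B (c (cg g)) (x (xg g))).image (fun y => ({y} : Finset (Fin n))))
    (fun g => by
      rw [Finset.card_image_of_injective _ Finset.singleton_injective]
      exact hTT g)
    (fun g S hS => by
      rw [Finset.mem_image] at hS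
      obtain ⟨y, -, rfl⟩ := hS
      rw [Finset.card_singleton])
    (fun g => by
      intro S hS T hT hST
      rw [Finset.mem_coe, Finset.mem_image] at hS hT
      obtain ⟨y, -, rfl⟩ := hS
      obtain ⟨z, -, rfl⟩ := hT
      change Disjoint ({y} : Finset (Fin n)) {z}
      rw [Finset.disjoint_singleton]
      rintro rfl
      exact hST rfl)
    (by
      have h1 : (Finset.univ.image x).card ≤ 9 := Finset.card_image_le.trans (by rfl)
      rw [hcardGI]
      omega)
  have hy : ∀ g, ∃ y, y ∈ Tset B (c (cg g)) (x (xg g)) ∧ g1 g = {y} := by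
    intro g
    have h := hg1 g
    rw [Finset.mem_image] at h
    obtain ⟨y, hy, h⟩ := h
    exact ⟨y, hy, h.symm⟩
  choose y hyT hyg using hy
  have hyx : ∀ g q, y g ≠ x q := by
    intro g q h
    have h1 := hg1W g
    rw [hyg, Finset.disjoint_singleton_left] at h1
    exact h1 (Finset.mem_image.2 ⟨q, Finset.mem_univ _, h.symm⟩)
  have hyinj : Function.Injective y := by
    intro g g' h
    by_contra hne
    have h1 := hg1d g g' hne
    rw [hyg, hyg, Finset.disjoint_singleton] at h1
    exact h1 h
  have hyT' : ∀ g, (y g, c (cg g)) ∈ B ∧ Rob B (x (xg g)) (y g) := by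
    intro g
    have h := hyT g
    simp only [Tset, Finset.mem_filter] at h
    exact h.2
  have hR := fun g => (hyT' g).2
  choose W hWc hWG hWd using hR
  let W0 : Finset (VV n) := (Finset.univ.image (fun q => (Sum.inl (x q) : VV n)) ∪
    Finset.univ.image (fun g => (Sum.inl (y g) : VV n))) ∪
    Finset.univ.image (fun q => (Sum.inr (c q) : VV n))
  have hW0 : W0.card ≤ 51 := by
    have h1 : (Finset.univ.image (fun q => (Sum.inl (x q) : VV n))).card ≤ 9 :=
      Finset.card_image_le.trans (by rfl)
    have h2 : (Finset.univ.image (fun g => (Sum.inl (y g) : VV n))).card ≤ 36 :=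
      Finset.card_image_le.trans (by rfl)
    have h3 : (Finset.univ.image (fun q => (Sum.inr (c q) : VV n))).card ≤ 6 :=
      Finset.card_image_le.trans (by rfl)
    have h4 := Finset.card_union_le (Finset.univ.image (fun q => (Sum.inl (x q) : VV n)))
      (Finset.univ.image (fun g => (Sum.inl (y g) : VV n)))
    have h5 := Finset.card_union_le (Finset.univ.image (fun q => (Sum.inl (x q) : VV n)) ∪
      Finset.univ.image (fun g => (Sum.inl (y g) : VV n)))
      (Finset.univ.image (fun q => (Sum.inr (c q) : VV n)))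
    exact h5.trans (by omega)
  obtain ⟨S, hSW, hSW0, hSd⟩ := hSEL GI (VV n) W0 12 500 W hWc
    (fun g T hT => by
      obtain ⟨u, w, s, -, -, -, rfl⟩ := hWG g T hT
      exact FNM_inn u w s) hWd (by rw [hcardGI]; omega)
  have hG := fun g => hWG g (S g) (hSW g)
  choose u w s hIs hu2 hw2 hS using hG
  have hnx : ∀ g q, (Sum.inl (x q) : VV n) ∉ S g := fun g q h =>
    (Finset.disjoint_left.1 (hSW0 g) h) (Finset.mem_union_left _ (Finset.mem_union_left _
      (Finset.mem_image.2 ⟨q, Finset.mem_univ _, rfl⟩)))
  have hny : ∀ g g', (Sum.inl (y g') : VV n) ∉ S g := fun g g' h =>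
    (Finset.disjoint_left.1 (hSW0 g) h) (Finset.mem_union_left _ (Finset.mem_union_right _
      (Finset.mem_image.2 ⟨g', Finset.mem_univ _, rfl⟩)))
  have hnc : ∀ g q, (Sum.inr (c q) : VV n) ∉ S g := fun g q h =>
    (Finset.disjoint_left.1 (hSW0 g) h) (Finset.mem_union_right _
      (Finset.mem_image.2 ⟨q, Finset.mem_univ _, rfl⟩))
  have hpt : ∀ (g : GI) (k : Fin 4),
      (Sum.inl ((![u g 0, u g 1, w g 0, w g 1] : Fin 4 → Fin n) k) : VV n) ∈ S g := by
    intro g k
    obtain ⟨m1, m2, m3, m4, -⟩ := FNM_mem (u g) (w g) (s g)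
    rw [hS g]
    fin_cases k
    · exact m1
    · exact m2
    · exact m3
    · exact m4
  have hln : ∀ (g : GI) (p : P8), (Sum.inr (s g p) : VV n) ∈ S g := by
    intro g p
    rw [hS g]
    exact (FNM_mem (u g) (w g) (s g)).2.2.2.2 p
  have hptinj : ∀ (g : GI) (k k' : Fin 4), (![u g 0, u g 1, w g 0, w g 1] : Fin 4 → Fin n) k =
      (![u g 0, u g 1, w g 0, w g 1] : Fin 4 → Fin n) k' → k = k' := by
    intro g k k' h
    have hi := (hIs g).inj
    have h01 : u g 0 ≠ u g 1 := fun h => by
      have := @hi (Sum.inl 0) (Sum.inl 1) h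
      simp at this
    have h23 : w g 0 ≠ w g 1 := fun h => by
      have := @hi (Sum.inr 0) (Sum.inr 1) h
      simp at this
    have hm : ∀ i j, u g i ≠ w g j := fun i j h => by
      have := @hi (Sum.inl i) (Sum.inr j) h
      simp at this
    fin_cases k <;> fin_cases k' <;> first
      | rfl
      | exact absurd h h01
      | exact absurd h h01.symm
      | exact absurd h h23
      | exact absurd h h23.symm
      | exact absurd h (hm _ _)
      | exact absurd h.symm (hm _ _)
  refine ⟨c, x, u, w, s, hw2, fun g => ?_, fun g p => ⟨(hIs g).fu p, (hIs g).fw p⟩, ?_, ?_⟩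
  · rw [hu2]
    exact (hyT' g).1
  · rintro (q | g | ⟨g, k⟩) (q' | g' | ⟨g', k'⟩) h
    · exact congrArg Sum.inl (hx h)
    · exact absurd (h.symm.trans (rfl : x q = x q)) (by
        change u g' 2 ≠ x q
        rw [hu2]
        exact hyx g' q)
    · exfalso
      have h1 : x q = (![u g' 0, u g' 1, w g' 0, w g' 1] : Fin 4 → Fin n) k' := h
      apply hnx g' q
      rw [h1]
      exact hpt g' k'
    · exfalso
      have h1 : u g 2 = x q' := h
      rw [hu2] at h1
      exact hyx g q' h1
    · have h1 : u g 2 = u g' 2 := h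
      rw [hu2, hu2] at h1
      rw [hyinj h1]
    · exfalso
      have h1 : u g 2 = (![u g' 0, u g' 1, w g' 0, w g' 1] : Fin 4 → Fin n) k' := h
      rw [hu2] at h1
      apply hny g' g
      rw [h1]
      exact hpt g' k'
    · exfalso
      have h1 : (![u g 0, u g 1, w g 0, w g 1] : Fin 4 → Fin n) k = x q' := h
      apply hnx g q'
      rw [← h1]
      exact hpt g k
    · exfalso
      have h1 : (![u g 0, u g 1, w g 0, w g 1] : Fin 4 → Fin n) k = u g' 2 := h
      rw [hu2] at h1
      apply hny g g'
      rw [← h1]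
      exact hpt g k
    · have h1 : (![u g 0, u g 1, w g 0, w g 1] : Fin 4 → Fin n) k =
        (![u g' 0, u g' 1, w g' 0, w g' 1] : Fin 4 → Fin n) k' := h
      have hgg : g = g' := by
        by_contra hne
        have h2 := hSd g g' hne
        have h3 := hpt g k
        rw [h1] at h3
        exact Finset.disjoint_left.1 h2 h3 (hpt g' k')
      subst hgg
      rw [hptinj g k k' h1]
  · have hc : Function.Injective c := by
      rintro ⟨sd, k⟩ ⟨sd', k'⟩ h
      cases sd <;> cases sd'
      · have h1 : a k = a k' := h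
        have h2 := @hab (Sum.inl k) (Sum.inl k') h1
        rw [Sum.inl_injective h2]
      · have h1 : a k = b k' := h
        have h2 := @hab (Sum.inl k) (Sum.inr k') h1
        simp at h2
      · have h1 : b k = a k' := h
        have h2 := @hab (Sum.inr k) (Sum.inl k') h1
        simp at h2
      · have h1 : b k = b k' := h
        have h2 := @hab (Sum.inr k) (Sum.inr k') h1
        rw [Sum.inr_injective h2]
    rintro (q | ⟨g, p⟩) (q' | ⟨g', p'⟩) h
    · exact congrArg Sum.inl (hc h)
    · exfalso
      have h1 : c q = s g' p' := h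
      apply hnc g' q
      rw [h1]
      exact hln g' p'
    · exfalso
      have h1 : s g p = c q' := h
      apply hnc g q'
      rw [← h1]
      exact hln g p
    · have h1 : s g p = s g' p' := h
      have hgg : g = g' := by
        by_contra hne
        have h2 := hSd g g' hne
        have h3 := hln g p
        rw [h1] at h3
        exact Finset.disjoint_left.1 h2 h3 (hln g' p')
      subst hgg
      rw [(hIs g).injs h1]

end Pool.Agent.XT
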