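import Pool.Agent.helper3.XT.Spec
set_option autoImplicit false
namespace Pool.Agent.XT
open Finset SimpleGraph

theorem HOS (hWNM : WNM_stmt) (hWGE : WGE_stmt) (hPRM : PRM_stmt) : HOS_stmt := by
  intro n hn
  obtain ⟨q, hq, hq2, hqn, hq4⟩ := hPRM n hn
  have hfact : Fact q.Prime := ⟨hq⟩
  have hcard : Fintype.card (V3 (ZMod q)) ≤ Fintype.card (Fin n) := by
    rw [Fintype.card_prod, Fintype.card_prod, ZMod.card, Fintype.card_fin]
    calc q * (q * q) = q ^ 3 := by ring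
      _ ≤ n := hqn
  obtain ⟨e⟩ := Function.Embedding.nonempty_of_card_le hcard
  have h2 : (2 : ZMod q) ≠ 0 := by
    intro h
    have h1 : ((2 : ℕ) : ZMod q) = 0 := by exact_mod_cast h
    rw [ZMod.natCast_eq_zero_iff] at h1
    have := Nat.le_of_dvd (by norm_num) h1
    omega
  obtain ⟨hg, hc⟩ := hWGE (ZMod q) n e
  refine ⟨WB e, hg, hWNM (ZMod q) h2 n e, ?_⟩
  rw [hc, ZMod.card]
  push_cast
  exact hq4

end Pool.Agent.XT
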