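import Pool.Agent.helper3.XT.Spec
set_option autoImplicit false
namespace Pool.Agent.XT
open Finset SimpleGraph

theorem MEQ : MEQ_stmt := by
  intro n B
  constructor
  · rintro ⟨f, g, hfg⟩
    refine ⟨fun q => g (Sum.inl q), fun q => f (Sum.inl q), fun h i => f (uM h i),
      fun h j => f (wM h j), fun h p => g (Sum.inr (h, p)), fun h => rfl, fun h => ?_,
      fun h p => ⟨?_, ?_⟩, ?_, ?_⟩
    · exact hfg _ _ (Or.inl ⟨h, rfl, rfl⟩)
    · exact hfg _ _ (Or.inr ⟨h, p, rfl, Or.inl rfl⟩)
    · exact hfg _ _ (Or.inr ⟨h, p, rfl, Or.inr rfl⟩)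
    · have h1 : (Sum.elim (fun q => f (Sum.inl q)) (Sum.elim (fun h => f (uM h 2))
          (fun q : GI × Fin 4 => (![f (uM q.1 0), f (uM q.1 1), f (wM q.1 0), f (wM q.1 1)] :
            Fin 4 → Fin n) q.2)) : XM → Fin n) = f := by
        funext z
        rcases z with z | z | ⟨h, k⟩
        · rfl
        · rfl
        · fin_cases k <;> rfl
      rw [h1]
      exact f.injective
    · have h1 : (Sum.elim (fun q => g (Sum.inl q)) (fun q : GI × P8 => g (Sum.inr (q.1, q.2))) :
          YM → Fin n) = g := by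
        funext z
        rcases z with z | z
        · rfl
        · rfl
      rw [h1]
      exact g.injective
  · rintro ⟨c, x, u, w, s, hwx, huc, hs, hinj, hinj2⟩
    refine ⟨⟨_, hinj⟩, ⟨_, hinj2⟩, ?_⟩
    rintro a b (⟨g, rfl, rfl⟩ | ⟨g, p, rfl, hp⟩)
    · exact huc g
    · have hu : ∀ i, (Sum.elim x (Sum.elim (fun g => u g 2)
          (fun q : GI × Fin 4 => (![u q.1 0, u q.1 1, w q.1 0, w q.1 1] : Fin 4 → Fin n) q.2)) :
            XM → Fin n) (uM g i) = u g i := by
        intro i
        fin_cases i <;> rfl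
      have hw : ∀ j, (Sum.elim x (Sum.elim (fun g => u g 2)
          (fun q : GI × Fin 4 => (![u q.1 0, u q.1 1, w q.1 0, w q.1 1] : Fin 4 → Fin n) q.2)) :
            XM → Fin n) (wM g j) = w g j := by
        intro j
        fin_cases j
        · rfl
        · rfl
        · exact (hwx g).symm
      rcases hp with rfl | rfl
      · have h1 := (hs g p).1
        rw [← hu] at h1
        exact h1
      · have h1 := (hs g p).2
        rw [← hw] at h1
        exact h1

end Pool.Agent.XT
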