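import Pool.Agent.helper3.XT.Spec
set_option autoImplicit false
namespace Pool.Agent.XT
open Finset SimpleGraph

theorem PRM : PRM_stmt := by
  intro n hn
  -- the largest k with (2 k)^3 ≤ n
  set k := Nat.findGreatest (fun k => (2 * k) ^ 3 ≤ n) n with hk
  have hk1 : (2 * k) ^ 3 ≤ n := by
    have h := Nat.findGreatest_spec (P := fun k => (2 * k) ^ 3 ≤ n) (m := 2) (n := n) (by omega)
      (by show (2 * 2) ^ 3 ≤ n; norm_num; omega)
    exact h
  have hk2 : 2 ≤ k := Nat.le_findGreatest (by omega) (by norm_num; omega)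
  have hk3 : n < (2 * (k + 1)) ^ 3 := by
    by_contra hcon
    push Not at hcon
    have hle : k + 1 ≤ n := by
      refine le_trans ?_ hcon
      calc k + 1 ≤ (2 * (k + 1)) := by omega
        _ = (2 * (k + 1)) ^ 1 := (pow_one _).symm
        _ ≤ (2 * (k + 1)) ^ 3 := Nat.pow_le_pow_right (by omega) (by norm_num)
    have := Nat.le_findGreatest (P := fun k => (2 * k) ^ 3 ≤ n) hle hcon
    omega
  obtain ⟨q, hq, hkq, hq2⟩ := Nat.exists_prime_lt_and_le_two_mul k (by omega)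
  refine ⟨q, hq, by omega, (Nat.pow_le_pow_left hq2 3).trans hk1, ?_⟩
  have h1 : n ≤ (2 * q) ^ 3 := hk3.le.trans (Nat.pow_le_pow_left (by omega) 3)
  have h2 : (n : ℝ) ≤ ((2 * q : ℝ)) ^ 3 := by exact_mod_cast h1
  have h3 : (n : ℝ) ^ (4 / 3 : ℝ) ≤ (((2 * q : ℝ)) ^ 3) ^ (4 / 3 : ℝ) :=
    Real.rpow_le_rpow (Nat.cast_nonneg _) h2 (by norm_num)
  have h4 : (((2 * q : ℝ)) ^ 3) ^ (4 / 3 : ℝ) = 16 * (q : ℝ) ^ 4 := by
    rw [← Real.rpow_natCast, ← Real.rpow_mul (by positivity)]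
    have : ((3 : ℕ) : ℝ) * (4 / 3) = ((4 : ℕ) : ℝ) := by norm_num
    rw [this, Real.rpow_natCast]
    ring
  rw [h4] at h3
  linarith

end Pool.Agent.XT
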