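import Pool.Agent.helper3.XT.Spec
set_option autoImplicit false
namespace Pool.Agent.XT
open Finset SimpleGraph

theorem WAA : WAA_stmt := by
  intro F _
  have h1 : ∀ p r l : V3 F, Inc p l → Inc r l → fo p r = 0 ∧ (p.1 = r.1 → p = r) := by
    rintro ⟨a, b, c⟩ ⟨a', b', c'⟩ ⟨m, s, t⟩ ⟨h1, h2⟩ ⟨h3, h4⟩
    simp only at h1 h2 h3 h4
    refine ⟨?_, ?_⟩
    · simp only [fo]
      rw [h1, h2, h3, h4]
      ring
    · intro h
      simp only at h
      subst h
      rw [h1, h2, h3, h4]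
  refine ⟨h1, ?_, ?_, ?_⟩
  · intro p r l m hpl hrl hpm hrm
    by_cases hpr : p.1 = r.1
    · exact Or.inl ((h1 p r l hpl hrl).2 hpr)
    · right
      obtain ⟨a, b, c⟩ := p
      obtain ⟨a', b', c'⟩ := r
      obtain ⟨m1, s1, t1⟩ := l
      obtain ⟨m2, s2, t2⟩ := m
      obtain ⟨e1, e2⟩ := hpl
      obtain ⟨e3, e4⟩ := hrl
      obtain ⟨e5, e6⟩ := hpm
      obtain ⟨e7, e8⟩ := hrm
      simp only at e1 e2 e3 e4 e5 e6 e7 e8 hpr
      have hne : a - a' ≠ 0 := sub_ne_zero.2 hpr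
      have hm : m1 = m2 := by
        apply mul_left_cancel₀ hne
        linear_combination -e1 + e3 + e5 - e7
      subst hm
      have hs : s1 = s2 := by linear_combination -e1 + e5
      subst hs
      have ht : t1 = t2 := by linear_combination -e2 + e6
      rw [ht]
  · intro y y' x l hyy hy hy' hf hf'
    have hne : y.1 ≠ y'.1 := fun h => hyy ((h1 y y' l hy hy').2 h)
    obtain ⟨a, b, c⟩ := y
    obtain ⟨a', b', c'⟩ := y'
    obtain ⟨α, β, γ⟩ := x
    obtain ⟨m, s, t⟩ := l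
    obtain ⟨e1, e2⟩ := hy
    obtain ⟨e3, e4⟩ := hy'
    simp only [fo] at e1 e2 e3 e4 hne hf hf'
    have hne' : a - a' ≠ 0 := sub_ne_zero.2 hne
    have hb : β = s + α * m := by
      apply mul_left_cancel₀ hne'
      linear_combination hf - hf' + e2 + e1 * α - e4 - e3 * α
    refine ⟨hb, ?_⟩
    simp only
    linear_combination hf + e2 + e1 * α - a * hb
  · intro p r
    simp only [fo]
    ring

end Pool.Agent.XT
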