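import Pool.Agent.helper3.XT.Spec
set_option autoImplicit false
namespace Pool.Agent.XT
open Finset SimpleGraph

theorem WCL : WCL_stmt := by
  intro F _ u w hu hw hp
  have hfo : ∀ i j : Fin 3, (i, j) ≠ (2, 2) → fo (u i) (w j) = 0 := fun i j h => hp ⟨(i, j), h⟩
  have e00 := hfo 0 0 (by decide)
  have e01 := hfo 0 1 (by decide)
  have e02 := hfo 0 2 (by decide)
  have e10 := hfo 1 0 (by decide)
  have e11 := hfo 1 1 (by decide)
  have e12 := hfo 1 2 (by decide)
  have e20 := hfo 2 0 (by decide)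
  have e21 := hfo 2 1 (by decide)
  revert hu hw e00 e01 e02 e10 e11 e12 e20 e21
  generalize u 0 = u0
  generalize u 1 = u1
  generalize u 2 = u2
  generalize w 0 = w0
  generalize w 1 = w1
  generalize w 2 = w2
  obtain ⟨a0, b0, c0⟩ := u0
  obtain ⟨a1, b1, c1⟩ := u1
  obtain ⟨a2, b2, c2⟩ := u2
  obtain ⟨x0, y0, z0⟩ := w0
  obtain ⟨x1, y1, z1⟩ := w1
  obtain ⟨x2, y2, z2⟩ := w2
  intro hu hw e00 e01 e02 e10 e11 e12 e20 e21
  simp only [fo] at e00 e01 e02 e10 e11 e12 e20 e21 ⊢
  -- determinant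
  have hD : (a1 - a0) * (b2 - b0) - (a2 - a0) * (b1 - b0) = 0 := by
    by_contra hD
    have hy : y1 - y0 = 0 := by
      have h : (y1 - y0) * ((a1 - a0) * (b2 - b0) - (a2 - a0) * (b1 - b0)) = 0 := by
        linear_combination (b2 - b0) * (e11 - e10 - e01 + e00) - (b1 - b0) * (e21 - e20 - e01 + e00)
      exact (mul_eq_zero.1 h).resolve_right hD
    have hx : x1 - x0 = 0 := by
      have h : (x1 - x0) * ((a1 - a0) * (b2 - b0) - (a2 - a0) * (b1 - b0)) = 0 := by
        linear_combination (a2 - a0) * (e11 - e10 - e01 + e00) - (a1 - a0) * (e21 - e20 - e01 + e00)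
      exact (mul_eq_zero.1 h).resolve_right hD
    have hy' : y1 = y0 := sub_eq_zero.1 hy
    have hx' : x1 = x0 := sub_eq_zero.1 hx
    subst hy'
    subst hx'
    have hz : z1 = z0 := by linear_combination e01 - e00
    subst hz
    exact hw rfl
  have hne : ¬ (a1 - a0 = 0 ∧ b1 - b0 = 0) := by
    rintro ⟨h1, h2⟩
    have h1' : a1 = a0 := sub_eq_zero.1 h1
    have h2' : b1 = b0 := sub_eq_zero.1 h2
    subst h1'
    subst h2'
    have hz : c1 = c0 := by linear_combination e00 - e10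
    subst hz
    exact hu rfl
  have k1 : (a1 - a0) * (y2 - y0) = (b1 - b0) * (x2 - x0) := by
    linear_combination e12 - e02 - e10 + e00
  have k2 : (a2 - a0) * (y2 - y0) = (b2 - b0) * (x2 - x0) := by
    by_cases h : a1 - a0 = 0
    · have h' : b1 - b0 ≠ 0 := fun h' => hne ⟨h, h'⟩
      apply mul_left_cancel₀ h'
      linear_combination (b2 - b0) * k1 - (y2 - y0) * hD
    · apply mul_left_cancel₀ h
      linear_combination (a2 - a0) * k1 - (x2 - x0) * hD
  linear_combination k2 + e02 + e20 - e00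

end Pool.Agent.XT
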