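import Pool.Agent.helper3.XT.Spec
set_option autoImplicit false
namespace Pool.Agent.XT
open Finset SimpleGraph

theorem WGE_mem {F : Type} [Field F] {n : ℕ} (e : V3 F ↪ Fin n) (a b : Fin n) :
    (a, b) ∈ WB e ↔ ∃ p l, Inc p l ∧ e p = a ∧ e l = b := by
  classical
  constructor
  · intro h
    simp only [WB, Finset.mem_filter] at h
    obtain ⟨-, p, l, hpl, h1⟩ := h
    rw [Prod.mk.injEq] at h1
    exact ⟨p, l, hpl, h1.1.symm, h1.2.symm⟩
  · rintro ⟨p, l, hpl, rfl, rfl⟩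
    simp only [WB, Finset.mem_filter]
    exact ⟨Finset.mem_univ _, p, l, hpl, rfl⟩

theorem WGE_inc {F : Type} [Field F] {n : ℕ} (e : V3 F ↪ Fin n) (p l : V3 F)
    (h : (e p, e l) ∈ WB e) : Inc p l := by
  obtain ⟨p', l', h1, h2, h3⟩ := (WGE_mem e _ _).1 h
  rw [e.injective h2, e.injective h3] at h1
  exact h1

theorem WGE (hWAA : WAA_stmt) : WGE_stmt := by
  intro F _ _ n e
  classical
  obtain ⟨hA1, hA2, hA3, hA4⟩ := hWAA F
  have hc4 : ∀ p q l m, (p, l) ∈ WB e → (q, l) ∈ WB e → (p, m) ∈ WB e → (q, m) ∈ WB e →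
      p = q ∨ l = m := by
    intro p q l m h1 h2 h3 h4
    obtain ⟨P, L, -, rfl, rfl⟩ := (WGE_mem e _ _).1 h1
    obtain ⟨Q, M, -, rfl, rfl⟩ := (WGE_mem e _ _).1 h4
    rcases hA2 P Q L M (WGE_inc e _ _ h1) (WGE_inc e _ _ h2) (WGE_inc e _ _ h3)
      (WGE_inc e _ _ h4) with h | h
    · exact Or.inl (by rw [h])
    · exact Or.inr (by rw [h])
  refine ⟨⟨hc4, ?_⟩, ?_⟩
  · intro p q r l m k hpl hql hqm hrm hrk hpk hpq hqr hpr
    obtain ⟨P, L, -, rfl, rfl⟩ := (WGE_mem e _ _).1 hpl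
    obtain ⟨Q, M, -, rfl, rfl⟩ := (WGE_mem e _ _).1 hqm
    obtain ⟨R, K, -, rfl, rfl⟩ := (WGE_mem e _ _).1 hrk
    have h1 : fo P R = 0 := (hA1 P R K (WGE_inc e _ _ hpk) (WGE_inc e _ _ hrk)).1
    have h2 : fo Q R = 0 := (hA1 Q R M (WGE_inc e _ _ hqm) (WGE_inc e _ _ hrm)).1
    have h3 : Inc R L := hA3 P Q R L (fun h => hpq (by rw [h])) (WGE_inc e _ _ hpl)
      (WGE_inc e _ _ hql) h1 h2
    have h4 : (e R, e L) ∈ WB e := (WGE_mem e _ _).2 ⟨R, L, h3, rfl, rfl⟩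
    have h5 : e L = e M := (hc4 _ _ _ _ hql h4 hqm hrm).resolve_left hqr
    have h6 : e L = e K := (hc4 _ _ _ _ hpl h4 hpk hrk).resolve_left hpr
    exact ⟨h5, h5.symm.trans h6⟩
  · let Φ : V3 F × F → Fin n × Fin n := fun z =>
      (e z.1, e (z.2, z.1.2.1 - z.1.1 * z.2, z.1.2.2 - z.1.1 * (z.1.2.1 - z.1.1 * z.2)))
    have hΦ : Function.Injective Φ := by
      rintro ⟨p, m⟩ ⟨p', m'⟩ h
      simp only [Φ, Prod.mk.injEq] at h
      have h1 := e.injective h.1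
      have h2 := e.injective h.2
      rw [Prod.mk.injEq] at h2
      rw [h1, h2.1]
    have hW : WB e = Finset.univ.image Φ := by
      ext ⟨a, b⟩
      rw [WGE_mem, Finset.mem_image]
      constructor
      · rintro ⟨p, l, ⟨h1, h2⟩, rfl, rfl⟩
        refine ⟨(p, l.1), Finset.mem_univ _, ?_⟩
        have h3 : p.2.1 - p.1 * l.1 = l.2.1 := by rw [h1]; ring
        have h4 : p.2.2 - p.1 * l.2.1 = l.2.2 := by rw [h2]; ring
        simp only [Φ, h3, h4]
      · rintro ⟨⟨p, m⟩, -, h⟩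
        simp only [Φ, Prod.mk.injEq] at h
        refine ⟨p, _, ?_, h.1, h.2⟩
        constructor
        · simp only
          ring
        · simp only
          ring
    rw [hW, Finset.card_image_of_injective _ hΦ, Finset.card_univ]
    rw [Fintype.card_prod, Fintype.card_prod, Fintype.card_prod]
    ring

end Pool.Agent.XT
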