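import Pool.Agent.helper3.XT.Spec
set_option autoImplicit false
namespace Pool.Agent.XT
open Finset SimpleGraph

theorem WNM_mem {F : Type} [Field F] {n : ℕ} (e : V3 F ↪ Fin n) (a b : Fin n) :
    (a, b) ∈ WB e → ∃ p l, Inc p l ∧ e p = a ∧ e l = b := by
  intro h
  classical
  simp only [WB, Finset.mem_filter] at h
  obtain ⟨-, p, l, hpl, h1⟩ := h
  rw [Prod.mk.injEq] at h1
  exact ⟨p, l, hpl, h1.1.symm, h1.2.symm⟩

theorem WNM_inc {F : Type} [Field F] {n : ℕ} (e : V3 F ↪ Fin n) (p l : V3 F) (a b : Fin n)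
    (ha : e p = a) (hb : e l = b) (h : (a, b) ∈ WB e) : Inc p l := by
  obtain ⟨p', l', h1, h2, h3⟩ := WNM_mem e a b h
  have hp : p' = p := e.injective (h2.trans ha.symm)
  have hl : l' = l := e.injective (h3.trans hb.symm)
  rw [hp, hl] at h1
  exact h1

theorem WNM (hMEQ : MEQ_stmt) (hWAA : WAA_stmt) (hWCL : WCL_stmt) (hWGR : WGR_stmt) :
    WNM_stmt := by
  intro F _ h2 n e hM
  rw [hMEQ] at hM
  obtain ⟨c, x, u, w, s, hwx, huc, hs, hinj, hinj2⟩ := hM
  obtain ⟨hA1, hA2, hA3, hA4⟩ := hWAA F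
  -- preimages
  have hU : ∀ g i, ∃ p, e p = u g i := by
    intro g i
    obtain ⟨p, l, -, h1, -⟩ := WNM_mem e _ _ (hs g ⟨(i, 0), by simp⟩).1
    exact ⟨p, h1⟩
  have hW : ∀ g j, ∃ p, e p = w g j := by
    intro g j
    obtain ⟨p, l, -, h1, -⟩ := WNM_mem e _ _ (hs g ⟨(0, j), by simp⟩).2
    exact ⟨p, h1⟩
  have hS : ∀ g p, ∃ l, e l = s g p := by
    intro g p
    obtain ⟨q, l, -, -, h1⟩ := WNM_mem e _ _ (hs g p).1
    exact ⟨l, h1⟩
  have hC : ∀ b k, ∃ l, e l = c (b, k) := by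
    intro b k
    obtain ⟨q, l, -, -, h1⟩ := WNM_mem e _ _ (huc (b, k, k, false))
    refine ⟨l, ?_⟩
    rw [h1]
    cases b <;> rfl
  have hX : ∀ i j, ∃ p, e p = x (i, j) := by
    intro i j
    obtain ⟨p, hp⟩ := hW (false, i, j, false) 2
    exact ⟨p, by rw [hp, hwx]; rfl⟩
  choose U hU using hU
  choose W hW using hW
  choose S hS using hS
  choose C hC using hC
  choose X hX using hX
  have hfo : ∀ g, fo (U g 2) (W g 2) = 0 := by
    intro g
    apply hWCL F (U g) (W g)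
    · intro h
      have h1 : u g 0 = u g 1 := by rw [← hU, ← hU, h]
      have h2 := @hinj (Sum.inr (Sum.inr (g, 0))) (Sum.inr (Sum.inr (g, 1))) h1
      simp at h2
    · intro h
      have h1 : w g 0 = w g 1 := by rw [← hW, ← hW, h]
      have h2 := @hinj (Sum.inr (Sum.inr (g, 2))) (Sum.inr (Sum.inr (g, 3))) h1
      simp at h2
    · intro p
      exact (hA1 _ _ (S g p) (WNM_inc e _ _ _ _ (hU g p.1.1) (hS g p) (hs g p).1)
        (WNM_inc e _ _ _ _ (hW g p.1.2) (hS g p) (hs g p).2)).1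
  have hWX : ∀ g : GI, W g 2 = X g.2.1 g.2.2.1 := by
    intro g
    apply e.injective
    rw [hW, hX, hwx]
    rfl
  have key : ∀ b i j, Inc (X i j) (C b (if b = true then j else i)) := by
    intro b i j
    apply hA3 (U (b, i, j, false) 2) (U (b, i, j, true) 2)
    · intro h
      have h1 : u (b, i, j, false) 2 = u (b, i, j, true) 2 := by rw [← hU, ← hU, h]
      have h2 := @hinj (Sum.inr (Sum.inl (b, i, j, false))) (Sum.inr (Sum.inl (b, i, j, true))) h1
      simp at h2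
    · exact WNM_inc e _ _ _ _ (hU _ 2) (hC b _) (huc (b, i, j, false))
    · exact WNM_inc e _ _ _ _ (hU _ 2) (hC b _) (huc (b, i, j, true))
    · have h1 := hfo (b, i, j, false)
      rw [hWX] at h1
      exact h1
    · have h1 := hfo (b, i, j, true)
      rw [hWX] at h1
      exact h1
  apply hWGR F h2 (C false) (C true) (fun q => X q.1 q.2)
  · have hCi : ∀ b b' k k', C b k = C b' k' → b = b' ∧ k = k' := by
      intro b b' k k' h
      have h1 : c (b, k) = c (b', k') := by rw [← hC, ← hC, h]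
      have h2 := @hinj2 (Sum.inl (b, k)) (Sum.inl (b', k')) h1
      simpa using h2
    rintro (k | k) (k' | k') h
    · exact congrArg Sum.inl (hCi _ _ _ _ h).2
    · exact absurd (hCi _ _ _ _ h).1 (by simp)
    · exact absurd (hCi _ _ _ _ h).1 (by simp)
    · exact congrArg Sum.inr (hCi _ _ _ _ h).2
  · rintro ⟨i, j⟩ ⟨i', j'⟩ h
    have h0 : X i j = X i' j' := h
    have h1 : x (i, j) = x (i', j') := by rw [← hX, ← hX, h0]
    have h2 := @hinj (Sum.inl (i, j)) (Sum.inl (i', j')) h1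
    exact Sum.inl_injective h2
  · intro i j
    exact ⟨key false i j, key true i j⟩

end Pool.Agent.XT
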